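import Pool.Agent.Helper95.LW.Walk
import Pool.Agent.Helper2.PG.CluM

/-!
# PG+ (b), law half, block COMP (deterministic): capped weights

The weight of a closed edge `e` is capped at `κ * (Δ * |Clu e| + 1)`: walking around the closed
`*`-cluster of `e` is cheaper by `κ` than an edge with a capped weight, so an almost minimal walk
from `x` to `y` for the capped weights uses capped edges only near its ends.
-/

set_option autoImplicit false

namespace Pool.Agent.Helper95.LW

open Pool.Agent.Helper79.GR Pool.Agent.Helper2.PG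

variable {d : ℕ}

/-! ## the geometry of clusters -/

theorem abs_bs_adj {e f : Edge d} (h : Adj2 e f) (i : Fin d) : |bs f i - bs e i| ≤ 1 := by
  obtain ⟨k, rfl⟩ := exists_nb h
  unfold nb
  rw [bs_ed]
  show |bs e i + (((k.1 i : ℕ) : ℤ) - 1) - bs e i| ≤ 1
  have h1 : (k.1 i : ℕ) < 3 := (k.1 i).2
  rw [abs_le]
  constructor <;> omega

theorem exists_between {cl : Edge d → Prop} {e f : Edge d} (he : cl e) (h : Rel cl e f)
    (i : Fin d) (t : ℤ) (ht : (bs e i ≤ t ∧ t ≤ bs f i) ∨ (bs f i ≤ t ∧ t ≤ bs e i)) :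
    ∃ g ∈ Clu cl e, bs g i = t := by
  induction h with
  | refl =>
    exact ⟨e, Clu.self he, by omega⟩
  | @tail f f' hef hff ih =>
    have h1 := abs_bs_adj hff.2 i
    rw [abs_le] at h1
    by_cases h2 : (bs e i ≤ t ∧ t ≤ bs f i) ∨ (bs f i ≤ t ∧ t ≤ bs e i)
    · exact ih h2
    · by_cases h3 : t = bs f' i
      · exact ⟨f', ⟨he, Relation.ReflTransGen.tail hef hff⟩, h3.symm⟩
      · exfalso
        omega

/-- the base points of the edges of a finite cluster are near to each other -/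
theorem abs_bs_lt {cl : Edge d → Prop} {e f : Edge d} (hfin : (Clu cl e).Finite)
    (h : f ∈ Clu cl e) (i : Fin d) : |bs f i - bs e i| < (Clu cl e).ncard := by
  classical
  set a : ℤ := min (bs e i) (bs f i) with ha
  set b : ℤ := max (bs e i) (bs f i) with hb
  have h1 : (Finset.Icc a b) ⊆ hfin.toFinset.image fun g => bs g i := by
    intro t ht
    rw [Finset.mem_Icc] at ht
    obtain ⟨g, hg, hgt⟩ := exists_between h.1 h.2 i t (by omega)
    exact Finset.mem_image.2 ⟨g, hfin.mem_toFinset.2 hg, hgt⟩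
  have h2 := (Finset.card_le_card h1).trans Finset.card_image_le
  rw [Int.card_Icc, ← Set.ncard_eq_toFinset_card _ hfin] at h2
  rcases le_total (bs e i) (bs f i) with h3 | h3
  · rw [min_eq_left h3] at ha
    rw [max_eq_right h3] at hb
    rw [abs_of_nonneg (by omega)]
    omega
  · rw [min_eq_right h3] at ha
    rw [max_eq_left h3] at hb
    rw [abs_of_nonpos (by omega)]
    omega

theorem mem_edge {e : Edge d} {v : V d} (hv : v ∈ e.1) : v = bs e ∨ v = bs e + ee (dr e) := by
  have h1 : v ∈ (ed (bs e) (dr e, true)).1 := by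
    rw [ed_bs]
    exact hv
  have h2 : v ∈ s(bs e, bs e + sv (dr e, true)) := h1
  rw [Sym2.mem_iff, sv_true] at h2
  exact h2

theorem bs_mem (e : Edge d) : bs e ∈ e.1 := by
  have h1 : bs e ∈ (ed (bs e) (dr e, true)).1 := Sym2.mem_mk_left _ _
  rwa [ed_bs] at h1

theorem abs_mem_le {cl : Edge d → Prop} {e f : Edge d} (hfin : (Clu cl e).Finite)
    (h : f ∈ Clu cl e) {v : V d} (hv : v ∈ f.1) (i : Fin d) :
    |v i - bs e i| ≤ (Clu cl e).ncard := by
  have h1 := abs_bs_lt hfin h i
  have h3 : v i - bs f i = 0 ∨ v i - bs f i = 1 := by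
    rcases mem_edge hv with rfl | rfl
    · left
      omega
    · have := ee_val (dr f) i
      simp only [Pi.add_apply]
      omega
  rw [abs_lt] at h1
  rw [abs_le]
  constructor <;> omega

/-- two points which are far from the cluster of `e` are joined by a walk avoiding it -/
theorem exists_avoid (hd : 2 ≤ d) {cl : Edge d → Prop} {e : Edge d} (hfin : (Clu cl e).Finite)
    {x y : V d} (hx : ∃ i, ((Clu cl e).ncard : ℤ) < |x i - bs e i|)
    (hy : ∃ i, ((Clu cl e).ncard : ℤ) < |y i - bs e i|) :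
    ∃ p, pos x p = y ∧ ∀ f ∈ eds x p, f ∉ Clu cl e := by
  obtain ⟨p, h1, h2⟩ := rch_cube hd (bs e) ((Clu cl e).ncard) (Int.natCast_nonneg _) hx hy
  refine ⟨p, h1, fun f hf hfC => ?_⟩
  obtain ⟨v, hv, i, hi⟩ := h2 f hf
  exact absurd (abs_mem_le hfin hfC hv i) (not_le.2 hi)

/-- the `*`-neighbours of a finite set of edges -/
noncomputable def Nbs (F : Finset (Edge d)) : Finset (Edge d) := by
  classical
  exact (F ×ˢ (Finset.univ : Finset (Kd d))).image fun p => nb p.1 p.2

theorem mem_Nbs {F : Finset (Edge d)} {e f : Edge d} (hf : f ∈ F) (h : Adj2 e f) : e ∈ Nbs F := by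
  classical
  obtain ⟨k, hk⟩ := exists_nb h.symm
  exact Finset.mem_image.2 ⟨(f, k), Finset.mem_product.2 ⟨hf, Finset.mem_univ _⟩, hk⟩

theorem card_Nbs (F : Finset (Edge d)) : (Nbs F).card ≤ Dl d * F.card := by
  classical
  refine Finset.card_image_le.trans ?_
  rw [Finset.card_product, Finset.card_univ, card_Kd, Nat.mul_comm]

/-! ## sums over walks without repeated edges -/

theorem sum_le_cost [DecidableEq (Edge d)] {c : Edge d → ℝ} (hc : ∀ e, 0 ≤ c e) (x : V d)
    (w : List (St d)) : ∑ e ∈ (eds x w).toFinset, c e ≤ cost c x w := by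
  rw [cost_eq_sum]
  induction eds x w with
  | nil => simp
  | cons a l ih =>
    rw [List.toFinset_cons, List.map_cons, List.sum_cons]
    by_cases h : a ∈ l.toFinset
    · rw [Finset.insert_eq_self.2 h]
      have := hc a
      linarith
    · rw [Finset.sum_insert h]
      linarith

theorem cost_eq_sum_finset [DecidableEq (Edge d)] {c : Edge d → ℝ} (x : V d) {w : List (St d)}
    (h : (eds x w).Nodup) : cost c x w = ∑ e ∈ (eds x w).toFinset, c e := by
  rw [cost_eq_sum]
  exact (List.sum_toFinset c h).symm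

/-! ## capped weights -/

/-- the capped weights: closed edges are those with weight `> κ` -/
noncomputable def sc (κ : ℝ) (c : Edge d → ℝ) (e : Edge d) : ℝ := by
  classical
  exact if κ < c e then min (c e) (κ * (Dl d * (Clu (fun f => κ < c f) e).ncard + 1)) else c e

/-- the closed edges whose cluster is near to `x` -/
def Ct (κ : ℝ) (c : Edge d → ℝ) (x : V d) : Set (Edge d) :=
  {e | κ < c e ∧ ∃ v ∈ e.1, ∀ i, |x i - v i| ≤ (Clu (fun f => κ < c f) e).ncard}

variable {κ : ℝ} {c : Edge d → ℝ}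

theorem sc_le (e : Edge d) : sc κ c e ≤ c e := by
  unfold sc
  split_ifs
  · exact min_le_left _ _
  · exact le_rfl

theorem sc_open {e : Edge d} (h : ¬ κ < c e) : sc κ c e = c e := by
  unfold sc
  rw [if_neg h]

theorem sc_closed {e : Edge d} (h : κ < c e) :
    sc κ c e = min (c e) (κ * (Dl d * (Clu (fun f => κ < c f) e).ncard + 1)) := by
  unfold sc
  rw [if_pos h]

theorem sc_capped {e : Edge d} (h : sc κ c e < c e) :
    κ < c e ∧ sc κ c e = κ * (Dl d * (Clu (fun f => κ < c f) e).ncard + 1) := by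
  have h1 : κ < c e := by
    by_contra hne
    rw [sc_open hne] at h
    exact lt_irrefl _ h
  refine ⟨h1, ?_⟩
  rw [sc_closed h1] at h ⊢
  rcases le_total (c e) (κ * (Dl d * (Clu (fun f => κ < c f) e).ncard + 1)) with h2 | h2
  · rw [min_eq_left h2] at h
    exact absurd h (lt_irrefl _)
  · exact min_eq_right h2

theorem sc_pos (hκ : 0 < κ) (hc : ∀ e, 0 < c e) (e : Edge d) : 0 < sc κ c e := by
  unfold sc
  split_ifs
  · exact lt_min (hc e) (by positivity)
  · exact hc e

theorem min_le_sc (hκ : 0 < κ) (e : Edge d) : min (c e) κ ≤ sc κ c e := by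
  by_cases h : κ < c e
  · rw [sc_closed h]
    refine le_min (min_le_left _ _) ((min_le_right _ _).trans ?_)
    have h1 : (0 : ℝ) ≤ Dl d * (Clu (fun f => κ < c f) e).ncard := by positivity
    nlinarith
  · rw [sc_open h]
    exact min_le_left _ _

/-- the detour around the cluster of a capped edge is cheaper by `κ` -/
theorem exists_detour (hd : 2 ≤ d) (hκ : 0 < κ) (hc : ∀ e, 0 < c e)
    {x : V d} {w : List (St d)} {e : Edge d} (he : e ∈ eds x w)
    (hcap : sc κ c e < c e) (hfin : (Clu (fun f => κ < c f) e).Finite)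
    (hx : e ∉ Ct κ c x) (hy : e ∉ Ct κ c (pos x w)) :
    ∃ w', pos x w' = pos x w ∧ cost (sc κ c) x w' ≤ cost (sc κ c) x w - κ := by
  classical
  obtain ⟨hcl, hse⟩ := sc_capped hcap
  set cl : Edge d → Prop := fun f => κ < c f with hcldef
  have hfar : ∀ z : V d, e ∉ Ct κ c z → ∃ i, ((Clu cl e).ncard : ℤ) < |z i - bs e i| := by
    intro z hz
    by_contra hne
    push Not at hne
    exact hz ⟨hcl, bs e, bs_mem e, hne⟩
  obtain ⟨p, hp, hpQ⟩ := exists_avoid hd hfin (hfar x hx) (hfar _ hy)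
  obtain ⟨s, hs, hsE⟩ := detour_gen (fun f => f ∈ Clu cl e) x w p hp hpQ
  obtain ⟨w', hw', hww, hnd⟩ := exists_nodup x s
  refine ⟨w', hw'.trans hs, ?_⟩
  set F := hfin.toFinset with hF
  have hpos : ∀ e, 0 ≤ sc κ c e := fun e => (sc_pos hκ hc e).le
  have heF : e ∈ F := hfin.mem_toFinset.2 (Clu.self hcl)
  have h1 : (eds x w').toFinset ⊆
      ((eds x w).toFinset.erase e) ∪ (Nbs F).filter fun f => ¬ κ < c f := by
    intro f hf
    rw [List.mem_toFinset] at hf
    obtain ⟨h2, h3⟩ := hsE f (hww f hf)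
    rw [Finset.mem_union]
    rcases h3 with h3 | ⟨g, hg, hfg⟩
    · left
      refine Finset.mem_erase.2 ⟨?_, List.mem_toFinset.2 h3⟩
      rintro rfl
      exact h2 (Clu.self hcl)
    · right
      refine Finset.mem_filter.2 ⟨mem_Nbs (hfin.mem_toFinset.2 hg) hfg, fun hf2 => ?_⟩
      exact h2 (Clu.of_adj hg hf2 hfg.symm)
  rw [cost_eq_sum_finset x hnd]
  have h2 : ∑ f ∈ (eds x w').toFinset, sc κ c f ≤
      ∑ f ∈ (eds x w).toFinset.erase e, sc κ c f +
        ∑ f ∈ (Nbs F).filter fun f => ¬ κ < c f, sc κ c f := by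
    refine (Finset.sum_le_sum_of_subset_of_nonneg h1 fun f _ _ => hpos f).trans ?_
    rw [← Finset.sum_union_inter]
    have := Finset.sum_nonneg fun f (_ : f ∈ ((eds x w).toFinset.erase e) ∩
      ((Nbs F).filter fun f => ¬ κ < c f)) => hpos f
    linarith
  have h3 : ∑ f ∈ (Nbs F).filter (fun f => ¬ κ < c f), sc κ c f ≤
      κ * (Dl d * (Clu cl e).ncard) := by
    have h4 : ∑ f ∈ (Nbs F).filter (fun f => ¬ κ < c f), sc κ c f ≤
        ∑ f ∈ (Nbs F).filter (fun f => ¬ κ < c f), κ :=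
      Finset.sum_le_sum fun f hf => (sc_le f).trans (not_lt.1 (Finset.mem_filter.1 hf).2)
    refine h4.trans ?_
    rw [Finset.sum_const, nsmul_eq_mul, mul_comm]
    refine mul_le_mul_of_nonneg_left ?_ hκ.le
    have h5 : ((Nbs F).filter fun f => ¬ κ < c f).card ≤ Dl d * F.card :=
      (Finset.card_filter_le _ _).trans (card_Nbs F)
    have h6 : F.card = (Clu cl e).ncard := (Set.ncard_eq_toFinset_card _ hfin).symm
    rw [h6] at h5
    exact_mod_cast h5
  have h4 : ∑ f ∈ (eds x w).toFinset.erase e, sc κ c f + sc κ c e ≤ cost (sc κ c) x w := by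
    rw [Finset.sum_erase_add _ _ (List.mem_toFinset.2 he)]
    exact sum_le_cost hpos x w
  rw [hse] at h4
  linarith

/-- an almost minimal walk for the capped weights uses capped edges only near its ends -/
theorem capped_mem (hd : 2 ≤ d) (hκ : 0 < κ) (hc : ∀ e, 0 < c e)
    (hfin : ∀ e, (Clu (fun f => κ < c f) e).Finite) {x y : V d} {w : List (St d)}
    (hw : pos x w = y) (hmin : cost (sc κ c) x w < T (sc κ c) x y + κ) {e : Edge d}
    (he : e ∈ eds x w) (hcap : sc κ c e < c e) : e ∈ Ct κ c x ∨ e ∈ Ct κ c y := by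
  by_contra hne
  rw [not_or] at hne
  subst hw
  obtain ⟨w', h1, h2⟩ := exists_detour hd hκ hc he hcap (hfin e) hne.1 hne.2
  have h3 := Pool.Agent.Helper41.JT.T_le_cost' (sc_pos hκ hc) h1
  linarith

/-- comparison along an almost minimal walk for the capped weights -/
theorem cost_le_capped (hd : 2 ≤ d) (hκ : 0 < κ) (hc : ∀ e, 0 < c e)
    (hfin : ∀ e, (Clu (fun f => κ < c f) e).Finite) {x y : V d} {w : List (St d)}
    (hw : pos x w = y) (hmin : cost (sc κ c) x w < T (sc κ c) x y + κ)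
    (hnd : (eds x w).Nodup) {b : Edge d → ℝ} {δ : ℝ} (hδ : 0 ≤ δ) (hb : ∀ e, 0 ≤ b e)
    (hbc : ∀ e, b e ≤ c e + δ) {F G : Finset (Edge d)} (hF : Ct κ c x ⊆ F)
    (hG : Ct κ c y ⊆ G) :
    cost b x w ≤ cost (sc κ c) x w + δ * w.length + ∑ e ∈ F, b e + ∑ e ∈ G, b e := by
  classical
  rw [cost_eq_sum_finset x hnd, cost_eq_sum_finset x hnd]
  set E := (eds x w).toFinset with hE
  have hcard : (E.card : ℝ) = w.length := by
    rw [hE, List.toFinset_card_of_nodup hnd, length_eds]
  have h1 : ∀ e ∈ E, b e ≤ sc κ c e + δ + (if e ∈ F then b e else 0) +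
      (if e ∈ G then b e else 0) := by
    intro e he
    have h2 := hb e
    have h4 : (0 : ℝ) ≤ if e ∈ F then b e else 0 := by split_ifs <;> linarith
    have h5 : (0 : ℝ) ≤ if e ∈ G then b e else 0 := by split_ifs <;> linarith
    by_cases h3 : sc κ c e < c e
    · have h6 := (sc_pos hκ hc e).le
      rcases capped_mem hd hκ hc hfin hw hmin (List.mem_toFinset.1 he) h3 with h7 | h7
      · have h8 : e ∈ F := hF h7
        rw [if_pos h8] at h4 ⊢
        linarith
      · have h8 : e ∈ G := hG h7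
        rw [if_pos h8] at h5 ⊢
        linarith
    · have h6 : sc κ c e = c e := le_antisymm (sc_le e) (not_lt.1 h3)
      have h7 := hbc e
      rw [h6]
      linarith
  have hsub : ∀ H : Finset (Edge d), ∑ e ∈ E, (if e ∈ H then b e else 0) ≤ ∑ e ∈ H, b e := by
    intro H
    rw [← Finset.sum_filter]
    refine Finset.sum_le_sum_of_subset_of_nonneg (fun e he => (Finset.mem_filter.1 he).2)
      fun e _ _ => hb e
  have h2 := Finset.sum_le_sum h1
  rw [Finset.sum_add_distrib, Finset.sum_add_distrib, Finset.sum_add_distrib, Finset.sum_const,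
    nsmul_eq_mul, hcard] at h2
  have h3 := hsub F
  have h4 := hsub G
  linarith

/-- COMP: the passage times of the capped weights and of the weights `b ≤ c` -/
theorem comp_capped (hd : 2 ≤ d) (hκ : 0 < κ) (hc : ∀ e, 0 < c e)
    (hfin : ∀ e, (Clu (fun f => κ < c f) e).Finite) (x y : V d) {b : Edge d → ℝ}
    (hb : ∀ e, 0 < b e) (hbc : ∀ e, b e ≤ c e) {F G : Finset (Edge d)} (hF : Ct κ c x ⊆ F)
    (hG : Ct κ c y ⊆ G) :
    T b x y ≤ T (sc κ c) x y + ∑ e ∈ F, b e + ∑ e ∈ G, b e := by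
  refine le_of_forall_pos_lt_add fun ε hε => ?_
  have h1 : T (sc κ c) x y < T (sc κ c) x y + min κ ε := by
    have := lt_min hκ hε
    linarith
  have hne : Nonempty {w : List (St d) // pos x w = y} := by
    obtain ⟨w, hw, -⟩ := exists_walk x y
    exact ⟨⟨w, hw⟩⟩
  obtain ⟨⟨w, hw⟩, hwlt⟩ := exists_lt_of_ciInf_lt h1
  obtain ⟨w', hw', hsub, hnd⟩ := exists_nodup x w
  have h2 : cost (sc κ c) x w' ≤ cost (sc κ c) x w := by
    classical
    rw [cost_eq_sum_finset x hnd]
    refine le_trans ?_ (sum_le_cost (fun e => (sc_pos hκ hc e).le) x w)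
    refine Finset.sum_le_sum_of_subset_of_nonneg (fun e he => ?_)
      fun e _ _ => (sc_pos hκ hc e).le
    exact List.mem_toFinset.2 (hsub e (List.mem_toFinset.1 he))
  have h3 : cost (sc κ c) x w < T (sc κ c) x y + min κ ε := hwlt
  have h4 := cost_le_capped hd hκ hc hfin (hw'.trans hw)
    (lt_of_le_of_lt h2 (h3.trans_le (by have := min_le_left κ ε; linarith))) hnd le_rfl
    (fun e => (hb e).le) (fun e => by rw [add_zero]; exact hbc e) hF hG
  have h5 := Pool.Agent.Helper41.JT.T_le_cost' hb (hw'.trans hw)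
  have h6 := min_le_right κ ε
  rw [zero_mul, add_zero] at h4
  linarith

/-- the capped weights have the smaller passage times -/
theorem T_sc_le (hκ : 0 < κ) (hc : ∀ e, 0 < c e) (x y : V d) : T (sc κ c) x y ≤ T c x y := by
  have hne : Nonempty {w : List (St d) // pos x w = y} := by
    obtain ⟨w, hw, -⟩ := exists_walk x y
    exact ⟨⟨w, hw⟩⟩
  refine le_ciInf fun w => ?_
  refine (Pool.Agent.Helper41.JT.T_le_cost' (sc_pos hκ hc) w.2).trans ?_
  exact Pool.Agent.Helper41.JT.cost_mono sc_le x w.1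

/-- the form of COMP which is used for the disjoint rays -/
theorem abs_T_sub_le (hd : 2 ≤ d) (hκ : 0 < κ) (hc : ∀ e, 0 < c e)
    (hfin : ∀ e, (Clu (fun f => κ < c f) e).Finite) (x y : V d) {F G : Finset (Edge d)}
    (hF : Ct κ c x ⊆ F) (hG : Ct κ c y ⊆ G) :
    |T c x y - T (sc κ c) x y| ≤ ∑ e ∈ F, c e + ∑ e ∈ G, c e := by
  have h1 := comp_capped hd hκ hc hfin x y hc (fun _ => le_rfl) hF hG
  have h2 := T_sc_le hκ hc x y
  rw [abs_le]
  constructor
  · have h3 := Finset.sum_nonneg fun e (_ : e ∈ F) => (hc e).le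
    have h4 := Finset.sum_nonneg fun e (_ : e ∈ G) => (hc e).le
    linarith
  · linarith

/-- (D1): weights at most `B` -/
theorem comp_card (hd : 2 ≤ d) (hκ : 0 < κ) (hc : ∀ e, 0 < c e)
    (hfin : ∀ e, (Clu (fun f => κ < c f) e).Finite) (x y : V d) {b : Edge d → ℝ} {B : ℝ}
    (hb : ∀ e, 0 < b e) (hbc : ∀ e, b e ≤ c e) (hB : ∀ e, b e ≤ B)
    (hx : (Ct κ c x).Finite) (hy : (Ct κ c y).Finite) :
    T b x y ≤ T (sc κ c) x y + B * ((Ct κ c x).ncard + (Ct κ c y).ncard) := by
  have h1 := comp_capped hd hκ hc hfin x y hb hbc (F := hx.toFinset) (G := hy.toFinset)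
    (by rw [Set.Finite.coe_toFinset]) (by rw [Set.Finite.coe_toFinset])
  have h2 : ∀ {z : V d} (hz : (Ct κ c z).Finite), ∑ e ∈ hz.toFinset, b e ≤
      B * (Ct κ c z).ncard := by
    intro z hz
    have h3 : ∑ e ∈ hz.toFinset, b e ≤ ∑ e ∈ hz.toFinset, B := Finset.sum_le_sum fun e _ => hB e
    rw [Finset.sum_const, nsmul_eq_mul, ← Set.ncard_eq_toFinset_card _ hz, mul_comm] at h3
    exact h3
  have h3 := h2 hx
  have h4 := h2 hy
  linarith

end Pool.Agent.Helper95.LW
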