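import Pool.Agent.Helper95.LW.Err

/-!
# PG+ (b), law half, block ERR: moments of `Ct`, tightness of the error, the comparison
-/

set_option autoImplicit false

namespace Pool.Agent.Helper95.LW

open Pool.Agent.Helper79.GR Pool.Agent.Helper2.PG MeasureTheory ProbabilityTheory Filter Topology
open Pool.Agent.Helper67.LL (Iid)

variable {d : ℕ} {κ : ℝ}

theorem summable_poly {ρ : ℝ} (h0 : 0 ≤ ρ) (h1 : ρ < 1) (A B k : ℕ) :
    Summable fun n : ℕ => ((A * n + B : ℕ) : ℝ) ^ k * ρ ^ n := by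
  have h2 : Summable fun n : ℕ => ((A + B : ℕ) : ℝ) ^ k * ((n : ℝ) ^ k * ρ ^ n + ρ ^ n) := by
    refine Summable.mul_left _ (Summable.add ?_ (summable_geometric_of_lt_one h0 h1))
    exact summable_pow_mul_geometric_of_norm_lt_one k (by rwa [Real.norm_of_nonneg h0])
  refine Summable.of_nonneg_of_le (fun n => by positivity) (fun n => ?_) h2
  have h3 : ((A * n + B : ℕ) : ℝ) ^ k ≤ ((A + B : ℕ) : ℝ) ^ k * ((n : ℝ) ^ k + 1) := by
    rcases Nat.eq_zero_or_pos n with hn | hn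
    · subst hn
      have h4 : ((A * 0 + B : ℕ) : ℝ) ≤ ((A + B : ℕ) : ℝ) := by
        exact_mod_cast (by omega : A * 0 + B ≤ A + B)
      have h5 := pow_le_pow_left₀ (Nat.cast_nonneg (A * 0 + B)) h4 k
      have h6 : (0 : ℝ) ≤ ((A + B : ℕ) : ℝ) ^ k := by positivity
      have h7 : (0 : ℝ) ≤ ((0 : ℕ) : ℝ) ^ k := by positivity
      nlinarith
    · have h4 : A * n + B ≤ (A + B) * n := by
        rw [Nat.add_mul]
        have := Nat.mul_le_mul_left B hn
        omega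
      have h5 : ((A * n + B : ℕ) : ℝ) ≤ ((A + B : ℕ) : ℝ) * (n : ℝ) := by exact_mod_cast h4
      have h6 := pow_le_pow_left₀ (Nat.cast_nonneg (A * n + B)) h5 k
      rw [mul_pow] at h6
      have h7 : (0 : ℝ) ≤ ((A + B : ℕ) : ℝ) ^ k := by positivity
      linarith [mul_add (((A + B : ℕ) : ℝ) ^ k) ((n : ℝ) ^ k) 1]
  calc ((A * n + B : ℕ) : ℝ) ^ k * ρ ^ n ≤ ((A + B : ℕ) : ℝ) ^ k * ((n : ℝ) ^ k + 1) * ρ ^ n :=
        mul_le_mul_of_nonneg_right h3 (by positivity)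
    _ = _ := by ring

section

variable {Ω : Type*} [MeasurableSpace Ω] {P : Measure Ω} {X : Edge d → Ω → ℝ} {ν : Measure ℝ}

/-- the numbers which bound the moments -/
noncomputable def wt (d p : ℕ) (ρ : ℝ) (n : ℕ) : ℝ :=
  (((2 * n + 3) ^ d * d : ℕ) : ℝ) ^ p * (((2 * n + 3 : ℕ) : ℝ) ^ d * d * ρ ^ n)

theorem wt_nonneg (d p : ℕ) {ρ : ℝ} (h0 : 0 ≤ ρ) (n : ℕ) : 0 ≤ wt d p ρ n := by
  unfold wt
  positivity

theorem summable_wt (d p : ℕ) {ρ : ℝ} (h0 : 0 ≤ ρ) (h1 : ρ < 1) : Summable (wt d p ρ) := by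
  have h2 := (summable_poly h0 h1 2 3 (d * p + d)).mul_left ((d : ℝ) ^ (p + 1))
  refine h2.congr fun n => ?_
  unfold wt
  rw [pow_add (((2 * n + 3 : ℕ) : ℝ)), pow_mul, pow_succ]
  push_cast
  ring

/-- the dominating variable of the power `p` of the cardinality -/
noncomputable def dmv (κ : ℝ) (c : Edge d → ℝ) (x : V d) (p : ℕ) : ENNReal := by
  classical
  exact ∑' n : ℕ, if Bg κ c x n then
    ENNReal.ofReal ((((2 * n + 3) ^ d * d : ℕ) : ℝ) ^ p) else 0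

theorem lintegral_dmv_le (h : Iid P X ν) (x : V d) (p : ℕ) :
    ∫⁻ ω, dmv κ (cf X ω) x p ∂P ≤
      ∑' n : ℕ, ENNReal.ofReal (wt d p ((Dl d : ℝ) ^ 2 * ν.real (Set.Ioi κ)) n) := by
  classical
  have := h.prob
  have hm : ∀ n, MeasurableSet {ω | Bg κ (cf X ω) x n} := fun n =>
    h.measurable_cf (measurableSet_bg x n)
  unfold dmv
  rw [lintegral_tsum fun n => (Measurable.ite (hm n) measurable_const
    measurable_const).aemeasurable]
  refine ENNReal.tsum_le_tsum fun n => ?_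
  have h1 : (fun ω => if Bg κ (cf X ω) x n then
      ENNReal.ofReal ((((2 * n + 3) ^ d * d : ℕ) : ℝ) ^ p) else 0) =
      Set.indicator {ω | Bg κ (cf X ω) x n}
        fun _ => ENNReal.ofReal ((((2 * n + 3) ^ d * d : ℕ) : ℝ) ^ p) := by
    funext ω
    simp only [Set.indicator_apply, Set.mem_ofPred_eq]
  rw [h1, lintegral_indicator_const (hm n), ← ofReal_measureReal, ← ENNReal.ofReal_mul (by
    positivity)]
  refine ENNReal.ofReal_le_ofReal ?_
  unfold wt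
  exact mul_le_mul_of_nonneg_left (prob_bg h x n) (by positivity)

theorem tsum_wt_ne_top (d p : ℕ) {ρ : ℝ} (h0 : 0 ≤ ρ) (h1 : ρ < 1) :
    ∑' n : ℕ, ENNReal.ofReal (wt d p ρ n) ≠ ⊤ := by
  rw [← ENNReal.ofReal_tsum_of_nonneg (wt_nonneg d p h0) (summable_wt d p h0 h1)]
  exact ENNReal.ofReal_ne_top

/-- almost surely only finitely many large clusters are near to any point -/
theorem ae_bg (h : Iid P X ν) (hρ : (Dl d : ℝ) ^ 2 * ν.real (Set.Ioi κ) < 1) :
    ∀ᵐ ω ∂P, ∀ x : V d, ∃ N, ∀ n, N ≤ n → ¬ Bg κ (cf X ω) x n := by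
  have := h.prob
  rw [ae_all_iff]
  intro x
  have h0 : 0 ≤ (Dl d : ℝ) ^ 2 * ν.real (Set.Ioi κ) := by positivity
  have h1 : ∑' n, P {ω | Bg κ (cf X ω) x n} ≠ ⊤ := by
    refine ne_top_of_le_ne_top (tsum_wt_ne_top d 0 h0 hρ) (ENNReal.tsum_le_tsum fun n => ?_)
    rw [← ofReal_measureReal]
    refine ENNReal.ofReal_le_ofReal ((prob_bg h x n).trans ?_)
    unfold wt
    rw [pow_zero, one_mul]
  filter_upwards [ae_eventually_notMem h1] with ω hω
  obtain ⟨N, hN⟩ := eventually_atTop.1 hω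
  exact ⟨N, hN⟩

/-- the clusters are finite -/
theorem ae_clu (h : Iid P X ν) (hρ : (Dl d : ℝ) ^ 2 * ν.real (Set.Ioi κ) < 1) :
    ∀ᵐ ω ∂P, ∀ e, (Clu (fun f => κ < cf X ω f) e).Finite := by
  have := h.prob
  exact ae_finite h.indep measurableSet_Ioi (fun e => (real_Ioi h e).le) measureReal_nonneg hρ

theorem ct_finite {c : Edge d → ℝ} {x : V d} (h : ∃ N, ∀ n, N ≤ n → ¬ Bg κ c x n) :
    (Ct κ c x).Finite := by
  obtain ⟨N, hN⟩ := h
  exact (Finset.finite_toSet _).subset (Ct_subset hN)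

theorem ae_ct (h : Iid P X ν) (hρ : (Dl d : ℝ) ^ 2 * ν.real (Set.Ioi κ) < 1) :
    ∀ᵐ ω ∂P, ∀ x, (Ct κ (cf X ω) x).Finite := by
  filter_upwards [ae_bg h hρ] with ω hω x
  exact ct_finite (hω x)

theorem ncard_pow_le {c : Edge d → ℝ} {x : V d} (h : ∃ N, ∀ n, N ≤ n → ¬ Bg κ c x n) {p : ℕ}
    (hp : p ≠ 0) : ((Ct κ c x).ncard : ENNReal) ^ p ≤ dmv κ c x p := by
  classical
  have hN := Nat.find_spec h
  rcases Nat.eq_zero_or_pos (Nat.find h) with h0 | h0
  · rw [h0] at hN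
    have h1 : Ct κ c x = ∅ := by
      ext e
      simp only [Set.mem_empty_iff_false, iff_false]
      intro he
      exact absurd (clu_lt hN he) (Nat.not_lt_zero _)
    rw [h1, Set.ncard_empty, Nat.cast_zero, zero_pow hp]
    exact zero_le
  · obtain ⟨n, hn⟩ := Nat.exists_eq_succ_of_ne_zero h0.ne'
    rw [hn] at hN
    have h1 : Bg κ c x n := by
      by_contra hne
      have h2 : ∀ k, n ≤ k → ¬ Bg κ c x k := by
        intro k hk
        rcases Nat.eq_or_lt_of_le hk with h3 | h3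
        · rwa [← h3]
        · exact hN k h3
      have h3 := Nat.find_min' h h2
      omega
    have h2 := ncard_Ct_le hN
    have h3 : (2 * n.succ + 1) ^ d * d = (2 * n + 3) ^ d * d := by
      congr 2
    rw [h3] at h2
    unfold dmv
    refine le_trans ?_ (ENNReal.le_tsum n)
    rw [if_pos h1]
    have h4 : ((Ct κ c x).ncard : ENNReal) = ENNReal.ofReal ((Ct κ c x).ncard : ℝ) :=
      (ENNReal.ofReal_natCast _).symm
    rw [h4, ← ENNReal.ofReal_pow (Nat.cast_nonneg _)]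
    refine ENNReal.ofReal_le_ofReal (pow_le_pow_left₀ (Nat.cast_nonneg _) ?_ p)
    exact_mod_cast h2

/-- **moments of the number of closed edges near to `x`**, uniformly in `x` -/
theorem lintegral_cC_pow_le (h : Iid P X ν) (hρ : (Dl d : ℝ) ^ 2 * ν.real (Set.Ioi κ) < 1)
    (x : V d) {p : ℕ} (hp : p ≠ 0) :
    ∫⁻ ω, cC κ (cf X ω) x ^ p ∂P ≤
      ∑' n : ℕ, ENNReal.ofReal (wt d p ((Dl d : ℝ) ^ 2 * ν.real (Set.Ioi κ)) n) := by
  refine le_trans (lintegral_mono_ae ?_) (lintegral_dmv_le h x p)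
  filter_upwards [ae_bg h hρ] with ω hω
  rw [cC_eq (ct_finite (hω x))]
  exact ncard_pow_le (hω x) hp

/-- the moments in the real numbers -/
theorem integrable_ncard_pow (h : Iid P X ν)
    (hρ : (Dl d : ℝ) ^ 2 * ν.real (Set.Ioi κ) < 1) {p : ℕ} (hp : p ≠ 0) :
    ∃ K : ℝ, 0 ≤ K ∧ ∀ x, Integrable (fun ω => (cC κ (cf X ω) x).toReal ^ p) P ∧
      ∫ ω, (cC κ (cf X ω) x).toReal ^ p ∂P ≤ K := by
  have := h.prob
  have h0 : 0 ≤ (Dl d : ℝ) ^ 2 * ν.real (Set.Ioi κ) := by positivity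
  refine ⟨(∑' n : ℕ, ENNReal.ofReal (wt d p ((Dl d : ℝ) ^ 2 * ν.real (Set.Ioi κ)) n)).toReal,
    ENNReal.toReal_nonneg, fun x => ?_⟩
  have hm : Measurable fun ω => (cC κ (cf X ω) x).toReal ^ p :=
    (((measurable_cC x).comp h.measurable_cf).ennreal_toReal).pow_const p
  have h1 : ∫⁻ ω, ENNReal.ofReal ((cC κ (cf X ω) x).toReal ^ p) ∂P ≤
      ∑' n : ℕ, ENNReal.ofReal (wt d p ((Dl d : ℝ) ^ 2 * ν.real (Set.Ioi κ)) n) := by
    refine le_trans (lintegral_mono_ae ?_) (lintegral_cC_pow_le h hρ x hp)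
    filter_upwards [ae_ct h hρ] with ω hω
    rw [cC_eq (hω x), ← ENNReal.toReal_pow, ENNReal.ofReal_toReal]
    exact ENNReal.pow_ne_top (ENNReal.natCast_ne_top _)
  have h2 := tsum_wt_ne_top d p h0 hρ
  have hnn : 0 ≤ᵐ[P] fun ω => (cC κ (cf X ω) x).toReal ^ p :=
    ae_of_all _ fun ω => pow_nonneg ENNReal.toReal_nonneg p
  have hint : Integrable (fun ω => (cC κ (cf X ω) x).toReal ^ p) P := by
    refine (lintegral_ofReal_ne_top_iff_integrable hm.aestronglyMeasurable hnn).1 ?_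
    exact ne_top_of_le_ne_top h2 h1
  refine ⟨hint, ?_⟩
  rw [integral_eq_lintegral_of_nonneg_ae hnn hm.aestronglyMeasurable]
  exact ENNReal.toReal_mono h2 h1

/-- the dominating variable of helper34's `up_of` -/
theorem exists_N (h : Iid P X ν) (hρ : (Dl d : ℝ) ^ 2 * ν.real (Set.Ioi κ) < 1) :
    ∃ (N : V d → Ω → ℝ) (K : ℝ), (∀ x, Integrable (N x) P) ∧ (∀ x, ∫ ω, N x ω ∂P ≤ K) ∧
      ∀ᵐ ω ∂P, ∀ x, (Ct κ (cf X ω) x).Finite ∧ ((Ct κ (cf X ω) x).ncard : ℝ) ≤ N x ω := by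
  obtain ⟨K, -, hK⟩ := integrable_ncard_pow h hρ one_ne_zero
  refine ⟨fun x ω => (cC κ (cf X ω) x).toReal ^ 1, K, fun x => (hK x).1, fun x => (hK x).2, ?_⟩
  filter_upwards [ae_ct h hρ] with ω hω x
  refine ⟨hω x, ?_⟩
  rw [cC_eq (hω x), pow_one, ENNReal.toReal_natCast]

/-! ## the error is tight -/

theorem tight_aux {α : Type*} [MeasurableSpace α] (μ : Measure α) [IsFiniteMeasure μ]
    {f : α → ℝ} (hf : Measurable f) {p : ℝ} (hp : 0 < p) : ∃ R : ℝ, μ.real {a | R < f a} ≤ p := by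
  have h1 : Tendsto (fun n : ℕ => μ {a | (n : ℝ) < f a}) atTop (𝓝 (μ (⋂ n : ℕ,
      {a | (n : ℝ) < f a}))) := by
    refine tendsto_measure_iInter_atTop (fun n =>
      (measurableSet_lt measurable_const hf).nullMeasurableSet) ?_ ⟨0, measure_ne_top _ _⟩
    intro m n hmn a ha
    have h2 : (n : ℝ) < f a := ha
    have h3 : (m : ℝ) ≤ n := by exact_mod_cast hmn
    exact lt_of_le_of_lt h3 h2
  have h2 : (⋂ n : ℕ, {a | (n : ℝ) < f a}) = ∅ := by
    ext a
    simp only [Set.mem_iInter, Set.mem_ofPred_eq, Set.mem_empty_iff_false, iff_false, not_forall,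
      not_lt]
    exact exists_nat_ge (f a)
  rw [h2, measure_empty] at h1
  have h3 : ∀ᶠ n : ℕ in atTop, μ {a | (n : ℝ) < f a} < ENNReal.ofReal p :=
    h1.eventually_lt_const (ENNReal.ofReal_pos.2 hp)
  obtain ⟨n, hn⟩ := h3.exists
  exact ⟨n, ENNReal.toReal_le_of_le_ofReal hp.le hn.le⟩

theorem er_tight (h : Iid P X ν) {p : ℝ} (hp : 0 < p) :
    ∃ R : ℝ, ∀ x : V d, P.real {ω | R < er κ (cf X ω) x} ≤ p := by
  have := h.prob
  have hmap : IsProbabilityMeasure (P.map (cf X)) :=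
    Measure.isProbabilityMeasure_map h.measurable_cf.aemeasurable
  obtain ⟨R, hR⟩ := tight_aux (P.map (cf X)) (measurable_er (κ := κ) (0 : V d)) hp
  refine ⟨R, fun x => ?_⟩
  have h1 : {ω | R < er κ (cf X ω) x} = (fun ω e => X (sh x e) ω) ⁻¹'
      {c : Edge d → ℝ | R < er κ c 0} := by
    ext ω
    simp only [Set.mem_ofPred_eq, Set.mem_preimage]
    have h2 := er_sh (κ := κ) (cf X ω) x 0
    rw [zero_add] at h2
    rw [← h2]
    rfl
  rw [h1, measureReal_def, (h.mp x).measure_preimage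
    (measurableSet_lt measurable_const (measurable_er 0)).nullMeasurableSet]
  exact hR

/-! ## the comparison -/

theorem ae_pos (h : Iid P X ν) (h0 : ν (Set.Iic 0) = 0) : ∀ᵐ ω ∂P, ∀ e, 0 < cf X ω e := by
  have : Countable (Edge d) := Subtype.countable
  rw [ae_all_iff]
  intro e
  have h1 : P (X e ⁻¹' Set.Iic 0) = 0 := by
    rw [← Measure.map_apply (h.meas e) measurableSet_Iic, h.law e, h0]
  rw [ae_iff]
  refine measure_mono_null (fun ω hω => ?_) h1
  exact not_lt.1 hω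

/-- **the comparison of the passage times with those of the capped weights** -/
theorem ae_cmp (hd : 2 ≤ d) (hκ : 0 < κ) (h : Iid P X ν) (h0 : ν (Set.Iic 0) = 0)
    (hρ : (Dl d : ℝ) ^ 2 * ν.real (Set.Ioi κ) < 1) :
    ∀ᵐ ω ∂P, ∀ x y, |T (cf X ω) x y - T (sc κ (cf X ω)) x y| ≤
      er κ (cf X ω) x + er κ (cf X ω) y := by
  filter_upwards [ae_pos h h0, ae_clu h hρ, ae_ct h hρ] with ω h1 h2 h3 x y
  have h4 := abs_T_sub_le hd hκ h1 h2 x y (F := (h3 x).toFinset) (G := (h3 y).toFinset)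
    (by rw [Set.Finite.coe_toFinset]) (by rw [Set.Finite.coe_toFinset])
  rwa [← er_eq (fun e => (h1 e).le) (h3 x), ← er_eq (fun e => (h1 e).le) (h3 y)] at h4

end

end Pool.Agent.Helper95.LW
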