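import Pool.Agent.Helper95.LW.Ray
import Pool.Agent.Helper67.PG.L1

/-!
# PG+ (b), law half, block ERR: the closed clusters near to a point, the error of the comparison

`Ct κ c x` = the closed edges whose cluster is near to `x`.  Its cardinality has all moments,
uniformly in `x`; the error `er κ c x` (sum of the weights of `Ct κ c x`) is tight.
-/

set_option autoImplicit false

namespace Pool.Agent.Helper95.LW

open Pool.Agent.Helper79.GR Pool.Agent.Helper2.PG MeasureTheory ProbabilityTheory Filter Topology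
open Pool.Agent.Helper67.LL (Iid)

variable {d : ℕ} {κ : ℝ}

/-! ## boxes of edges -/

/-- the edges the base point of which is in the cube of radius `n` around `x` -/
noncomputable def bx (x : V d) (n : ℕ) : Finset (Edge d) := by
  classical
  exact ((Finset.Icc (fun i => x i - (n : ℤ)) (fun i => x i + n)) ×ˢ
    (Finset.univ : Finset (Fin d))).image fun p => ed p.1 (p.2, true)

theorem mem_bx {x : V d} {n : ℕ} {e : Edge d} : e ∈ bx x n ↔ ∀ i, |x i - bs e i| ≤ n := by
  classical
  unfold bx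
  rw [Finset.mem_image]
  constructor
  · rintro ⟨⟨y, j⟩, hy, rfl⟩ i
    rw [bs_ed]
    have h1 := Finset.mem_Icc.1 (Finset.mem_product.1 hy).1
    have h2 : x i - (n : ℤ) ≤ y i := h1.1 i
    have h3 : y i ≤ x i + (n : ℤ) := h1.2 i
    show |x i - y i| ≤ n
    rw [abs_le]
    constructor <;> omega
  · intro h
    refine ⟨(bs e, dr e), Finset.mem_product.2 ⟨Finset.mem_Icc.2 ⟨fun i => ?_, fun i => ?_⟩,
      Finset.mem_univ _⟩, ed_bs e⟩
    · have h1 := (abs_le.1 (h i)).2
      show x i - (n : ℤ) ≤ bs e i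
      omega
    · have h1 := (abs_le.1 (h i)).1
      show bs e i ≤ x i + (n : ℤ)
      omega

theorem card_bx (x : V d) (n : ℕ) : (bx x n).card ≤ (2 * n + 1) ^ d * d := by
  classical
  unfold bx
  refine Finset.card_image_le.trans ?_
  rw [Finset.card_product, Finset.card_univ, Fintype.card_fin, Pi.card_Icc]
  refine Nat.mul_le_mul_right _ ?_
  rw [Finset.prod_congr rfl (g := fun _ => 2 * n + 1), Finset.prod_const, Finset.card_univ,
    Fintype.card_fin]
  intro i _
  rw [Int.card_Icc]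
  omega

/-! ## large clusters near to a point -/

/-- there is a cluster with at least `n` edges at distance at most `n + 1` from `x` -/
def Bg (κ : ℝ) (c : Edge d → ℝ) (x : V d) (n : ℕ) : Prop :=
  ∃ e ∈ bx x (n + 1), n ≤ (Clu (fun f => κ < c f) e).ncard

theorem Ct_near {c : Edge d → ℝ} {x : V d} {e : Edge d} (h : e ∈ Ct κ c x) :
    e ∈ bx x ((Clu (fun f => κ < c f) e).ncard + 1) := by
  obtain ⟨-, v, hv, hvi⟩ := h
  rw [mem_bx]
  intro i
  have h1 := hvi i
  have h3 : v i - bs e i = 0 ∨ v i - bs e i = 1 := by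
    rcases mem_edge hv with rfl | rfl
    · left
      omega
    · have := ee_val (dr e) i
      simp only [Pi.add_apply]
      omega
  rw [abs_le] at h1 ⊢
  push_cast
  constructor <;> omega

theorem Ct_bg {c : Edge d → ℝ} {x : V d} {e : Edge d} (h : e ∈ Ct κ c x) :
    Bg κ c x (Clu (fun f => κ < c f) e).ncard := ⟨e, Ct_near h, le_rfl⟩

/-- if no cluster is large, `Ct` is in a cube -/
theorem Ct_subset {c : Edge d → ℝ} {x : V d} {N : ℕ} (h : ∀ n, N ≤ n → ¬ Bg κ c x n) :
    Ct κ c x ⊆ (bx x N : Finset (Edge d)) := by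
  intro e he
  have h1 : (Clu (fun f => κ < c f) e).ncard < N := by
    by_contra hne
    exact h _ (not_lt.1 hne) (Ct_bg he)
  have h2 := mem_bx.1 (Ct_near he)
  show e ∈ bx x N
  rw [mem_bx]
  intro i
  have h3 := h2 i
  push_cast at h3
  omega

theorem ncard_Ct_le {c : Edge d → ℝ} {x : V d} {N : ℕ} (h : ∀ n, N ≤ n → ¬ Bg κ c x n) :
    (Ct κ c x).ncard ≤ (2 * N + 1) ^ d * d := by
  have h1 := Set.ncard_le_ncard (Ct_subset h) (Finset.finite_toSet _)
  rw [Set.ncard_coe_finset] at h1
  exact h1.trans (card_bx x N)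

theorem clu_lt {c : Edge d → ℝ} {x : V d} {N : ℕ} (h : ∀ n, N ≤ n → ¬ Bg κ c x n)
    {e : Edge d} (he : e ∈ Ct κ c x) : (Clu (fun f => κ < c f) e).ncard < N := by
  by_contra hne
  exact h _ (not_lt.1 hne) (Ct_bg he)

section

variable {Ω : Type*} [MeasurableSpace Ω] {P : Measure Ω} {X : Edge d → Ω → ℝ} {ν : Measure ℝ}

theorem real_Ioi (h : Iid P X ν) (e : Edge d) : P.real (X e ⁻¹' Set.Ioi κ) = ν.real (Set.Ioi κ) := by
  rw [measureReal_def, measureReal_def, ← h.law e,
    Measure.map_apply (h.meas e) measurableSet_Ioi]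

theorem prob_bg (h : Iid P X ν) (x : V d) (n : ℕ) :
    P.real {ω | Bg κ (cf X ω) x n} ≤
      ((2 * n + 3 : ℕ) : ℝ) ^ d * d * ((Dl d : ℝ) ^ 2 * ν.real (Set.Ioi κ)) ^ n := by
  classical
  have := h.prob
  rcases Nat.eq_zero_or_pos d with hd | hd
  · subst hd
    have h0 : {ω | Bg κ (cf X ω) x n} = ∅ := by
      ext ω
      simp only [Set.mem_ofPred_eq, Set.mem_empty_iff_false, iff_false]
      rintro ⟨e, -⟩
      exact (dr e).elim0
    rw [h0]
    simp
  · have e0 : Edge d := ed 0 (⟨0, hd⟩, true)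
    have hν1 : ν.real (Set.Ioi κ) ≤ 1 := by
      rw [← real_Ioi h e0]
      exact measureReal_le_one
    have hsub : {ω | Bg κ (cf X ω) x n} ⊆ ⋃ e ∈ bx x (n + 1),
        {ω | n ≤ (Clu (fun f => X f ω ∈ Set.Ioi κ) e).ncard} := by
      rintro ω ⟨e, he, hn⟩
      exact Set.mem_iUnion₂.2 ⟨e, he, hn⟩
    calc P.real {ω | Bg κ (cf X ω) x n} ≤ P.real (⋃ e ∈ bx x (n + 1),
          {ω | n ≤ (Clu (fun f => X f ω ∈ Set.Ioi κ) e).ncard}) :=
          measureReal_mono hsub (measure_ne_top _ _)
      _ ≤ ∑ e ∈ bx x (n + 1), P.real {ω | n ≤ (Clu (fun f => X f ω ∈ Set.Ioi κ) e).ncard} :=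
          measureReal_biUnion_finset_le _ _
      _ ≤ ∑ _e ∈ bx x (n + 1), ((Dl d : ℝ) ^ 2 * ν.real (Set.Ioi κ)) ^ n :=
          Finset.sum_le_sum fun e _ => peierls_ncard h.indep measurableSet_Ioi
            (fun e => (real_Ioi h e).le) measureReal_nonneg hν1 e n
      _ = ((bx x (n + 1)).card : ℝ) * ((Dl d : ℝ) ^ 2 * ν.real (Set.Ioi κ)) ^ n := by
          rw [Finset.sum_const, nsmul_eq_mul]
      _ ≤ _ := by
          refine mul_le_mul_of_nonneg_right ?_ (by positivity)
          have h1 := card_bx x (n + 1)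
          have h2 : 2 * (n + 1) + 1 = 2 * n + 3 := by ring
          rw [h2] at h1
          exact_mod_cast h1

/-! ## measurability -/

theorem measurable_clu (e : Edge d) :
    Measurable fun c : Edge d → ℝ => (Clu (fun f => κ < c f) e).ncard :=
  measurable_ncard (C := Set.Ioi κ) measurableSet_Ioi e

theorem measurableSet_mem_Ct (x : V d) (e : Edge d) :
    MeasurableSet {c : Edge d → ℝ | e ∈ Ct κ c x} := by
  have h1 : {c : Edge d → ℝ | e ∈ Ct κ c x} = (fun c => c e) ⁻¹' Set.Ioi κ ∩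
      ⋃ v : {v : V d // v ∈ e.1}, ⋂ i : Fin d,
        {c | |x i - v.1 i| ≤ ((Clu (fun f => κ < c f) e).ncard : ℤ)} := by
    ext c
    simp only [Ct, Set.mem_ofPred_eq, Set.mem_inter_iff, Set.mem_preimage, Set.mem_Ioi,
      Set.mem_iUnion, Set.mem_iInter]
    refine and_congr Iff.rfl ⟨?_, ?_⟩
    · rintro ⟨v, hv, hi⟩
      exact ⟨⟨v, hv⟩, hi⟩
    · rintro ⟨v, hi⟩
      exact ⟨v.1, v.2, hi⟩
  rw [h1]
  refine (measurable_pi_apply e measurableSet_Ioi).inter
    (MeasurableSet.iUnion fun v => MeasurableSet.iInter fun i => ?_)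
  have h2 : {c : Edge d → ℝ | |x i - v.1 i| ≤ ((Clu (fun f => κ < c f) e).ncard : ℤ)} =
      (fun c : Edge d → ℝ => (Clu (fun f => κ < c f) e).ncard) ⁻¹'
        {n : ℕ | |x i - v.1 i| ≤ (n : ℤ)} := rfl
  rw [h2]
  exact measurable_clu e (MeasurableSet.of_discrete)

theorem measurableSet_bg (x : V d) (n : ℕ) :
    MeasurableSet {c : Edge d → ℝ | Bg κ c x n} := by
  have h1 : {c : Edge d → ℝ | Bg κ c x n} = ⋃ e ∈ bx x (n + 1),
      (fun c : Edge d → ℝ => (Clu (fun f => κ < c f) e).ncard) ⁻¹' Set.Ici n := by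
    ext c
    simp only [Bg, Set.mem_ofPred_eq, Set.mem_iUnion, Set.mem_preimage, Set.mem_Ici, exists_prop]
  rw [h1]
  exact Finset.measurableSet_biUnion _ fun e _ => measurable_clu e measurableSet_Ici

/-- the cardinality in the extended numbers -/
noncomputable def cC (κ : ℝ) (c : Edge d → ℝ) (x : V d) : ENNReal :=
  ∑' e, (Ct κ c x).indicator (fun _ => (1 : ENNReal)) e

theorem measurable_cC (x : V d) : Measurable fun c : Edge d → ℝ => cC κ c x := by
  classical
  unfold cC
  refine Measurable.tsum fun e => ?_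
  have h1 : (fun c : Edge d → ℝ => (Ct κ c x).indicator (fun _ => (1 : ENNReal)) e) =
      Set.indicator {c : Edge d → ℝ | e ∈ Ct κ c x} fun _ => 1 := by
    funext c
    simp only [Set.indicator_apply, Set.mem_ofPred_eq]
  rw [h1]
  exact measurable_const.indicator (measurableSet_mem_Ct x e)

theorem cC_eq {c : Edge d → ℝ} {x : V d} (h : (Ct κ c x).Finite) :
    cC κ c x = ((Ct κ c x).ncard : ENNReal) := by
  classical
  unfold cC
  have h1 : ∑' e, (Ct κ c x).indicator (fun _ => (1 : ENNReal)) e =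
      ∑ e ∈ h.toFinset, (1 : ENNReal) := by
    rw [tsum_eq_sum (s := h.toFinset)]
    · refine Finset.sum_congr rfl fun e he => ?_
      rw [Set.indicator_of_mem (h.mem_toFinset.1 he)]
    · intro e he
      rw [Set.indicator_of_notMem (fun h2 => he (h.mem_toFinset.2 h2))]
  rw [h1, Finset.sum_const, nsmul_eq_mul, mul_one, Set.ncard_eq_toFinset_card _ h]

/-- the error: the sum of the weights of the closed edges near to `x` -/
noncomputable def er (κ : ℝ) (c : Edge d → ℝ) (x : V d) : ℝ :=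
  (∑' e, (Ct κ c x).indicator (fun e => ENNReal.ofReal (c e)) e).toReal

theorem measurable_er (x : V d) : Measurable fun c : Edge d → ℝ => er κ c x := by
  classical
  unfold er
  refine (Measurable.tsum fun e => ?_).ennreal_toReal
  have h1 : (fun c : Edge d → ℝ => (Ct κ c x).indicator (fun e => ENNReal.ofReal (c e)) e) =
      Set.indicator {c : Edge d → ℝ | e ∈ Ct κ c x} fun c => ENNReal.ofReal (c e) := by
    funext c
    simp only [Set.indicator_apply, Set.mem_ofPred_eq]
  rw [h1]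
  exact (measurable_pi_apply e).ennreal_ofReal.indicator (measurableSet_mem_Ct x e)

theorem er_nonneg (c : Edge d → ℝ) (x : V d) : 0 ≤ er κ c x := ENNReal.toReal_nonneg

theorem er_eq {c : Edge d → ℝ} (hc : ∀ e, 0 ≤ c e) {x : V d} (h : (Ct κ c x).Finite) :
    er κ c x = ∑ e ∈ h.toFinset, c e := by
  classical
  unfold er
  have h1 : ∑' e, (Ct κ c x).indicator (fun e => ENNReal.ofReal (c e)) e =
      ∑ e ∈ h.toFinset, ENNReal.ofReal (c e) := by
    rw [tsum_eq_sum (s := h.toFinset)]
    · refine Finset.sum_congr rfl fun e he => ?_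
      rw [Set.indicator_of_mem (h.mem_toFinset.1 he)]
    · intro e he
      rw [Set.indicator_of_notMem (fun h2 => he (h.mem_toFinset.2 h2))]
  rw [h1, ← ENNReal.ofReal_sum_of_nonneg fun e _ => hc e,
    ENNReal.toReal_ofReal (Finset.sum_nonneg fun e _ => hc e)]

/-! ## translations -/

theorem mem_edge_sh (v : V d) (e : Edge d) (z : V d) : z ∈ e.1 ↔ z + v ∈ (sh v e).1 := by
  show z ∈ e.1 ↔ z + v ∈ e.1.map fun x => x + v
  rw [Sym2.mem_map]
  constructor
  · intro h
    exact ⟨z, h, rfl⟩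
  · rintro ⟨y, hy, hyz⟩
    rwa [add_left_injective v hyz] at hy

theorem mem_Ct_sh (c : Edge d → ℝ) (v x : V d) (e : Edge d) :
    e ∈ Ct κ (fun f => c (sh v f)) x ↔ sh v e ∈ Ct κ c (x + v) := by
  have h1 := ncard_Clu_sh (cl := fun f => κ < c f) v e
  unfold Ct
  simp only [Set.mem_ofPred_eq]
  rw [h1]
  refine and_congr Iff.rfl ⟨?_, ?_⟩
  · rintro ⟨z, hz, hi⟩
    refine ⟨z + v, (mem_edge_sh v e z).1 hz, fun i => ?_⟩
    have h2 : (x + v) i - (z + v) i = x i - z i := by
      simp only [Pi.add_apply]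
      ring
    rw [h2]
    exact hi i
  · rintro ⟨z, hz, hi⟩
    refine ⟨z - v, (mem_edge_sh v e (z - v)).2 (by rwa [sub_add_cancel]), fun i => ?_⟩
    have h2 : x i - (z - v) i = (x + v) i - z i := by
      simp only [Pi.add_apply, Pi.sub_apply]
      ring
    rw [h2]
    exact hi i

/-- the translation as a bijection of the edges -/
noncomputable def shE (v : V d) : Edge d ≃ Edge d where
  toFun := sh v
  invFun := sh (-v)
  left_inv e := by
    have := sh_neg (-v) e
    rwa [neg_neg] at this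
  right_inv e := sh_neg v e

theorem er_sh (c : Edge d → ℝ) (v x : V d) :
    er κ (fun f => c (sh v f)) x = er κ c (x + v) := by
  classical
  unfold er
  congr 1
  refine Eq.trans ?_ ((shE v).tsum_eq _)
  refine tsum_congr fun e => ?_
  show (Ct κ (fun f => c (sh v f)) x).indicator (fun e => ENNReal.ofReal (c (sh v e))) e =
    (Ct κ c (x + v)).indicator (fun e => ENNReal.ofReal (c e)) (sh v e)
  rw [Set.indicator_apply, Set.indicator_apply, mem_Ct_sh]

theorem cC_sh (c : Edge d → ℝ) (v x : V d) :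
    cC κ (fun f => c (sh v f)) x = cC κ c (x + v) := by
  classical
  unfold cC
  refine Eq.trans ?_ ((shE v).tsum_eq _)
  refine tsum_congr fun e => ?_
  show (Ct κ (fun f => c (sh v f)) x).indicator (fun _ => (1 : ENNReal)) e =
    (Ct κ c (x + v)).indicator (fun _ => (1 : ENNReal)) (sh v e)
  rw [Set.indicator_apply, Set.indicator_apply, mem_Ct_sh]

end

end Pool.Agent.Helper95.LW
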