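import Pool.Agent.Helper95.LW.Cap
import Pool.Agent.Helper41.JT.Tail

/-!
# PG+ (b), law half, block (D3): the rays of the capped weights have tails which are rays
-/

set_option autoImplicit false

namespace Pool.Agent.Helper95.LW

open Pool.Agent.Helper79.GR Pool.Agent.Helper2.PG Pool.Agent.Helper41.JT

variable {d : ℕ} {κ : ℝ} {c : Edge d → ℝ}

/-- the vertices of a geodesic ray are different -/
theorem ray_inj {s : Edge d → ℝ} (hs : ∀ e, 0 < s e) {z : V d} {g : ℕ → St d}
    (hg : RayF s z g) : Function.Injective fun n => pos z (pre g n) := by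
  have key : ∀ i j, i < j → pos z (pre g i) ≠ pos z (pre g j) := by
    intro i j hij
    have h1 := Pool.Agent.Helper98.GK.geo_inj hs (hg j) hij (by rw [length_pre])
    rwa [take_pre g hij.le, take_pre g le_rfl] at h1
  intro i j hij
  rcases lt_trichotomy i j with h | h | h
  · exact absurd hij (key i j h)
  · exact h
  · exact absurd hij.symm (key j i h)

theorem exists_far {u : ℕ → V d} (hu : Function.Injective u) (v : V d) (r : ℤ) :
    ∃ N, ∀ n, N ≤ n → ∃ i, r < |u n i - v i| := by
  have h1 : (u ⁻¹' Set.Icc (fun i => v i - r) (fun i => v i + r)).Finite :=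
    (Set.finite_Icc _ _).preimage hu.injOn
  obtain ⟨N, hN⟩ := h1.bddAbove
  refine ⟨N + 1, fun n hn => ?_⟩
  by_contra hne
  push Not at hne
  have h2 : n ∈ u ⁻¹' Set.Icc (fun i => v i - r) (fun i => v i + r) := by
    constructor
    · intro i
      have := (abs_le.1 (hne i)).1
      show v i - r ≤ u n i
      omega
    · intro i
      have := (abs_le.1 (hne i)).2
      show u n i ≤ v i + r
      omega
  have h3 := hN h2
  omega

theorem mem_eds_pre (z : V d) (g : ℕ → St d) {n N : ℕ} (h : n < N) :
    ed (pos z (pre g n)) (g n) ∈ eds z (pre g N) := by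
  have h1 : pre g N = pre g (n + 1) ++ (pre g N).drop (n + 1) := by
    rw [← take_pre g (Nat.succ_le_of_lt h), List.take_append_drop]
  rw [h1, mem_eds_append, pre_succ, mem_eds_append]
  left
  right
  exact List.mem_singleton.2 rfl

/-- the capped edges of a ray from `z` of the capped weights are near to `z` -/
theorem ray_capped_mem (hd : 2 ≤ d) (hκ : 0 < κ) (hc : ∀ e, 0 < c e)
    (hfin : ∀ e, (Clu (fun f => κ < c f) e).Finite) {z : V d} {g : ℕ → St d}
    (hg : RayF (sc κ c) z g) (n : ℕ)
    (hcap : sc κ c (ed (pos z (pre g n)) (g n)) < c (ed (pos z (pre g n)) (g n))) :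
    ed (pos z (pre g n)) (g n) ∈ Ct κ c z := by
  set e := ed (pos z (pre g n)) (g n) with he
  have hs := sc_pos hκ hc
  by_contra hne
  have h1 : ∀ N, n < N → e ∈ Ct κ c (pos z (pre g N)) := by
    intro N hN
    have h2 := (Pool.Agent.Helper98.GK.geo_iff hs z _).1 (hg N)
    refine (capped_mem hd hκ hc hfin rfl (by rw [h2]; linarith) (mem_eds_pre z g hN)
      hcap).resolve_left hne
  obtain ⟨N, hN⟩ := exists_far (ray_inj hs hg) (bs e) ((Clu (fun f => κ < c f) e).ncard + 1)
  obtain ⟨i, hi⟩ := hN (max N (n + 1)) (le_max_left _ _)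
  obtain ⟨-, v, hv, hvi⟩ := h1 (max N (n + 1)) (by have := le_max_right N (n + 1); omega)
  have h2 := hvi i
  have h3 : v i - bs e i = 0 ∨ v i - bs e i = 1 := by
    rcases mem_edge hv with rfl | rfl
    · left
      omega
    · have := ee_val (dr e) i
      simp only [Pi.add_apply]
      omega
  rw [abs_le] at h2
  have h4 : |pos z (pre g (max N (n + 1))) i - bs e i| ≤
      (Clu (fun f => κ < c f) e).ncard + 1 := by
    rw [abs_le]
    constructor <;> omega
  exact absurd h4 (not_le.2 hi)

theorem cost_pre_congr {s : Edge d → ℝ} (x : V d) (g : ℕ → St d)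
    (h : ∀ n, s (ed (pos x (pre g n)) (g n)) = c (ed (pos x (pre g n)) (g n))) (n : ℕ) :
    cost s x (pre g n) = cost c x (pre g n) := by
  induction n with
  | zero => rfl
  | succ n ih =>
    rw [pre_succ, cost_append, cost_append, ih]
    have h1 : ∀ t : Edge d → ℝ, cost t (pos x (pre g n)) [g n] =
        t (ed (pos x (pre g n)) (g n)) := fun t => by simp [cost]
    rw [h1, h1, h n]

/-- **(D3)**: a ray of the capped weights has a tail which is a ray -/
theorem ray_tail (hd : 2 ≤ d) (hκ : 0 < κ) (hc : ∀ e, 0 < c e)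
    (hfin : ∀ e, (Clu (fun f => κ < c f) e).Finite) {z : V d} (hz : (Ct κ c z).Finite)
    {g : ℕ → St d} (hg : RayF (sc κ c) z g) :
    ∃ m, RayF c (pos z (pre g m)) (fun i => g (m + i)) := by
  have hs := sc_pos hκ hc
  have hinj := ray_inj hs hg
  have hA : {n | sc κ c (ed (pos z (pre g n)) (g n)) < c (ed (pos z (pre g n)) (g n))}.Finite := by
    have h1 : (⋃ e ∈ Ct κ c z, {v : V d | v ∈ e.1}).Finite := by
      refine hz.biUnion fun e _ => ?_
      refine Set.Finite.subset (Set.toFinite {bs e, bs e + ee (dr e)}) fun v hv => ?_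
      rcases mem_edge hv with h | h
      · exact Or.inl h
      · exact Or.inr h
    refine (h1.preimage hinj.injOn).subset fun n hn => ?_
    have h2 := ray_capped_mem hd hκ hc hfin hg n hn
    refine Set.mem_iUnion₂.2 ⟨_, h2, ?_⟩
    show pos z (pre g n) ∈ s(pos z (pre g n), pos z (pre g n) + sv (g n))
    exact Sym2.mem_mk_left _ _
  obtain ⟨M, hM⟩ := hA.bddAbove
  refine ⟨M + 1, fun n => ?_⟩
  have hpre : ∀ j, pre g (M + 1 + j) = pre g (M + 1) ++ pre (fun i => g (M + 1 + i)) j :=
    fun j => pre_add g (M + 1) j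
  have heq : ∀ j, sc κ c (ed (pos (pos z (pre g (M + 1))) (pre (fun i => g (M + 1 + i)) j))
      (g (M + 1 + j))) = c (ed (pos (pos z (pre g (M + 1))) (pre (fun i => g (M + 1 + i)) j))
      (g (M + 1 + j))) := by
    intro j
    have h1 : pos (pos z (pre g (M + 1))) (pre (fun i => g (M + 1 + i)) j) =
        pos z (pre g (M + 1 + j)) := by
      rw [hpre, Pool.Agent.Helper79.GR.pos_append]
    rw [h1]
    refine le_antisymm (sc_le _) (not_lt.1 fun h2 => ?_)
    have h3 : M + 1 + j ≤ M := hM h2
    omega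
  intro w' hw'
  rw [← cost_pre_congr (s := sc κ c) _ _ heq n]
  refine le_trans ?_ (cost_mono (c := c) (c' := sc κ c) sc_le _ w')
  have h1 := hg (M + 1 + n) (pre g (M + 1) ++ w') (by
    rw [hpre, Pool.Agent.Helper79.GR.pos_append, Pool.Agent.Helper79.GR.pos_append, hw'])
  rw [hpre, cost_append, cost_append] at h1
  linarith

end Pool.Agent.Helper95.LW
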