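import Pool.Agent.Helper98.GM.M1
import Pool.Agent.Helper2.PG.Peierls
import Pool.Agent.Helper41.JT.Bas

/-!
# PG+ (b), law half: walks (edge-self-avoiding walks inside a set, the complement of a cube)
-/

set_option autoImplicit false

namespace Pool.Agent.Helper95.LW

open Pool.Agent.Helper79.GR Pool.Agent.Helper2.PG

variable {d : ℕ}

/-- a walk can be replaced by one which uses every edge at most once -/
theorem exists_nodup (x : V d) (w : List (St d)) :
    ∃ w', pos x w' = pos x w ∧ (∀ e ∈ eds x w', e ∈ eds x w) ∧ (eds x w').Nodup := by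
  classical
  have hne : ∃ n : ℕ, ∃ w' : List (St d), pos x w' = pos x w ∧ (∀ e ∈ eds x w', e ∈ eds x w) ∧
      w'.length = n := ⟨w.length, w, rfl, fun e he => he, rfl⟩
  obtain ⟨w', h1, h2, h3⟩ := Nat.find_spec hne
  set n := Nat.find hne with hn
  refine ⟨w', h1, h2, ?_⟩
  set c : Edge d → ℝ := fun e => if e ∈ eds x w then 1 else (n : ℝ) + 1 with hc
  have hn0 : (0 : ℝ) ≤ n := Nat.cast_nonneg n
  have hcpos : ∀ e, 0 < c e := by
    intro e
    rw [hc]
    dsimp only
    split_ifs
    · exact one_pos
    · linarith
  have hin : ∀ (y : V d) (v : List (St d)), (∀ e ∈ eds y v, e ∈ eds x w) →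
      cost c y v = v.length := by
    intro y v hv
    rw [cost_eq_sum]
    have h4 : (eds y v).map c = (eds y v).map fun _ => (1 : ℝ) := by
      refine List.map_congr_left fun e he => ?_
      rw [hc]
      exact if_pos (hv e he)
    rw [h4, List.map_const', List.sum_replicate, length_eds, nsmul_eq_mul, mul_one]
  have hout : ∀ (y : V d) (v : List (St d)), (∃ e ∈ eds y v, e ∉ eds x w) →
      (n : ℝ) + 1 ≤ cost c y v := by
    rintro y v ⟨e, he, hew⟩
    have h5 : c e = (n : ℝ) + 1 := by
      rw [hc]
      exact if_neg hew
    rw [← h5, cost_eq_sum]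
    exact List.single_le_sum (by
      intro r hr
      obtain ⟨f, -, rfl⟩ := List.mem_map.1 hr
      exact (hcpos f).le) _ (List.mem_map_of_mem he)
  have hgeo : Geo c x w' := by
    intro v hv
    rw [hin x w' h2, h3]
    by_cases hvw : ∀ e ∈ eds x v, e ∈ eds x w
    · rw [hin x v hvw]
      have := Nat.find_min' hne ⟨v, hv.trans h1, hvw, rfl⟩
      exact_mod_cast this
    · push Not at hvw
      have := hout x v hvw
      linarith
  exact Pool.Agent.Helper98.GK.geo_nodup hcpos hgeo

/-- `x` and `y` are joined by a walk all edges of which satisfy `E` -/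
def Rch (E : Edge d → Prop) (x y : V d) : Prop := ∃ w, pos x w = y ∧ ∀ e ∈ eds x w, E e

theorem Rch.refl (E : Edge d → Prop) (x : V d) : Rch E x x := ⟨[], rfl, fun e he => by
  simp [eds] at he⟩

theorem Rch.trans {E : Edge d → Prop} {x y z : V d} (h : Rch E x y) (h' : Rch E y z) :
    Rch E x z := by
  obtain ⟨w, h1, h2⟩ := h
  obtain ⟨w', h3, h4⟩ := h'
  refine ⟨w ++ w', by rw [Pool.Agent.Helper79.GR.pos_append, h1, h3], fun e he => ?_⟩
  rw [mem_eds_append, h1] at he
  exact he.elim (h2 e) (h4 e)

theorem Rch.step {E : Edge d → Prop} {x : V d} {s : St d} (h : E (ed x s)) :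
    Rch E x (x + sv s) := by
  refine ⟨[s], rfl, fun e he => ?_⟩
  have h1 : e ∈ [ed x s] := he
  rw [List.mem_singleton] at h1
  rwa [h1]

theorem Rch.symm {E : Edge d → Prop} {x y : V d} (h : Rch E x y) : Rch E y x := by
  obtain ⟨w, rfl, h2⟩ := h
  induction w generalizing x with
  | nil => exact Rch.refl E x
  | cons s w ih =>
    have h3 : Rch E (pos (x + sv s) w) (x + sv s) :=
      ih (fun e he => h2 e (List.mem_cons_of_mem _ he))
    refine h3.trans ?_
    have h4 : E (ed x s) := h2 _ List.mem_cons_self
    have h5 := Pool.Agent.Helper41.JT.ed_rs x s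
    have h6 := Rch.step (E := E) (x := x + sv s) (s := Pool.Agent.Helper41.JT.rs s) (by rwa [h5])
    rwa [Pool.Agent.Helper41.JT.sv_rs, add_neg_cancel_right] at h6

theorem rch_up {G : V d → Prop} (x : V d) (i : Fin d) (n : ℕ)
    (h : ∀ t : ℤ, G (Function.update x i t)) :
    Rch (fun e => ∃ v ∈ e.1, G v) x (Function.update x i (x i + n)) := by
  induction n with
  | zero =>
    have h1 : Function.update x i (x i + ((0 : ℕ) : ℤ)) = x := by simp
    rw [h1]
    exact Rch.refl _ x
  | succ n ih =>
    refine ih.trans ?_
    have h1 : Function.update x i (x i + ((n + 1 : ℕ) : ℤ)) =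
        Function.update x i (x i + n) + sv (i, true) := by
      rw [sv_true]
      ext j
      by_cases hj : j = i
      · subst hj
        simp [ee]
        ring
      · simp [ee, hj]
    rw [h1]
    refine Rch.step ⟨_, ?_, h (x i + n)⟩
    show Function.update x i (x i + n) ∈ s(Function.update x i (x i + n), _)
    exact Sym2.mem_mk_left _ _

theorem rch_line {G : V d → Prop} (x : V d) (i : Fin d) (k : ℤ)
    (h : ∀ t : ℤ, G (Function.update x i t)) :
    Rch (fun e => ∃ v ∈ e.1, G v) x (Function.update x i k) := by
  rcases le_total (x i) k with hk | hk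
  · obtain ⟨n, hn⟩ := Int.eq_ofNat_of_zero_le (sub_nonneg.2 hk)
    have h1 := rch_up x i n h
    have h2 : x i + (n : ℤ) = k := by omega
    rwa [h2] at h1
  · obtain ⟨n, hn⟩ := Int.eq_ofNat_of_zero_le (sub_nonneg.2 hk)
    have h1 := rch_up (G := G) (Function.update x i k) i n (fun t => by
      rw [Function.update_idem]
      exact h t)
    rw [Function.update_idem, Function.update_self] at h1
    have h2 : k + (n : ℤ) = x i := by omega
    rw [h2, Function.update_eq_self] at h1
    exact h1.symm

/-- the points outside of a cube are joined by walks outside of the cube -/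
theorem rch_cube (hd : 2 ≤ d) (z : V d) (r : ℤ) {x y : V d} (hr : 0 ≤ r)
    (hx : ∃ i, r < |x i - z i|) (hy : ∃ i, r < |y i - z i|) :
    Rch (fun e => ∃ v ∈ e.1, ∃ i, r < |v i - z i|) x y := by
  classical
  have key : ∀ x : V d, (∃ i, r < |x i - z i|) →
      Rch (fun e => ∃ v ∈ e.1, ∃ i, r < |v i - z i|) x (fun i => z i + (r + 1)) := by
    rintro x ⟨i, hi⟩
    have h1 : ∀ s : Finset (Fin d), i ∉ s →
        Rch (fun e => ∃ v ∈ e.1, ∃ i, r < |v i - z i|) x
          (fun j => if j ∈ s then z j + (r + 1) else x j) := by
      intro s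
      induction s using Finset.induction_on with
      | empty =>
        intro _
        have h2 : (fun j => if j ∈ (∅ : Finset (Fin d)) then z j + (r + 1) else x j) = x := by
          ext j
          simp
        rw [h2]
        exact Rch.refl _ x
      | insert a s ha ih =>
        intro his
        rw [Finset.mem_insert, not_or] at his
        refine (ih his.2).trans ?_
        have h2 : (fun j => if j ∈ insert a s then z j + (r + 1) else x j) =
            Function.update (fun j => if j ∈ s then z j + (r + 1) else x j) a
              (z a + (r + 1)) := by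
          ext j
          by_cases hj : j = a
          · subst hj
            simp
          · simp [hj]
        rw [h2]
        refine rch_line _ a _ fun t => ⟨i, ?_⟩
        rw [Function.update_of_ne his.1]
        simpa [his.2] using hi
    have h3 := h1 (Finset.univ.erase i) (Finset.notMem_erase i _)
    refine h3.trans ?_
    have h4 : (fun j => z j + (r + 1)) = Function.update
        (fun j => if j ∈ Finset.univ.erase i then z j + (r + 1) else x j) i (z i + (r + 1)) := by
      ext j
      by_cases hj : j = i
      · subst hj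
        simp
      · simp [hj]
    rw [h4]
    refine rch_line _ i _ fun t => ?_
    obtain ⟨j, hj⟩ : ∃ j : Fin d, j ≠ i := by
      haveI : Nontrivial (Fin d) := Fin.nontrivial_iff_two_le.2 hd
      exact exists_ne i
    refine ⟨j, ?_⟩
    rw [Function.update_of_ne hj]
    simp only [Finset.mem_erase, ne_eq, hj, not_false_eq_true, Finset.mem_univ, and_self, if_true]
    rw [add_sub_cancel_left, abs_of_pos (by omega)]
    omega
  exact (key x hx).trans (key y hy).symm

end Pool.Agent.Helper95.LW
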